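import Pool.Agent.W646.CI.Stm

/-! MP_06ac62_an: uniform bound of the reciprocal over one shell. -/

set_option autoImplicit false

open MeasureTheory Filter Topology Set
open scoped ENNReal

namespace Pool.Agent.W371.CI

open Pool.Agent.W646.CI

noncomputable section

/-- the reciprocal on the line -/
def qf (x y : ℝ) : ℝ := 1 / ‖1 - Complex.exp ((x : ℂ) + y * Complex.I)‖

/-- inverse square root of the absolute value -/
def gf (x : ℝ) : ℝ := |x| ^ (-(1 / 2) : ℝ)

lemma nsq (x y : ℝ) : ‖1 - Complex.exp ((x : ℂ) + y * Complex.I)‖ ^ 2 =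
    (1 - Real.exp x) ^ 2 + 2 * Real.exp x * (1 - Real.cos y) := by
  rw [← Complex.normSq_eq_norm_sq, Complex.normSq_apply]
  simp only [Complex.sub_re, Complex.one_re, Complex.sub_im, Complex.one_im, Complex.exp_re,
    Complex.exp_im, Complex.add_re, Complex.add_im, Complex.ofReal_re, Complex.ofReal_im,
    Complex.mul_re, Complex.mul_im, Complex.I_re, Complex.I_im]
  have h := Real.sin_sq_add_cos_sq y
  have e1 : x + (y * 0 - 0 * 1) = x := by ring
  have e2 : 0 + (y * 1 + 0 * 0) = y := by ring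
  rw [e1, e2]
  linear_combination (Real.exp x) ^ 2 * h

lemma one_sub_exp {x : ℝ} (hx : |x| ≤ 1) : |x| / 2 ≤ |1 - Real.exp x| := by
  rcases le_total 0 x with h | h
  · rw [abs_of_nonneg h]
    have h1 := Real.add_one_le_exp x
    rw [abs_sub_comm, abs_of_nonneg (by linarith)]
    linarith
  · rw [abs_of_nonpos h] at hx ⊢
    have h1 := Real.add_one_le_exp (-x)
    have h2 : Real.exp x * Real.exp (-x) = 1 := by rw [← Real.exp_add]; simp
    have h3 : 0 < Real.exp x := Real.exp_pos x
    have h4 : Real.exp x ≤ 1 := Real.exp_le_one_iff.2 h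
    rw [abs_of_nonneg (by linarith)]
    have h5 : Real.exp x * (-x + 1) ≤ 1 :=
      (mul_le_mul_of_nonneg_left h1 h3.le).trans h2.le
    nlinarith

lemma lowA {x y : ℝ} (hx : |x| ≤ 1) (hy : |y| ≤ Real.pi) :
    (|x| * |y|) / 3 ≤ ‖1 - Complex.exp ((x : ℂ) + y * Complex.I)‖ ^ 2 := by
  rw [nsq]
  have h1 := one_sub_exp hx
  have h2 : |x| ^ 2 / 4 ≤ (1 - Real.exp x) ^ 2 := by
    rw [← sq_abs (1 - Real.exp x)]
    have := abs_nonneg x
    nlinarith
  have h3 := Real.cos_le_one_sub_mul_cos_sq hy
  have h4 : 1 / 3 ≤ Real.exp x := by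
    have h5 : Real.exp (-1) ≤ Real.exp x := Real.exp_le_exp.2 (by linarith [(abs_le.1 hx).1])
    have h6 : Real.exp (-1) = (Real.exp 1)⁻¹ := Real.exp_neg 1
    have h7 : Real.exp 1 ≤ 3 := by linarith [Real.exp_one_lt_d9]
    have h8 : (1 / 3 : ℝ) ≤ (Real.exp 1)⁻¹ := by
      rw [one_div]; exact inv_anti₀ (Real.exp_pos 1) h7
    linarith
  have hpi : Real.pi ^ 2 ≤ 10 := by
    have := Real.pi_lt_d2
    have := Real.pi_pos
    nlinarith
  have h9 : y ^ 2 / 5 ≤ 2 / Real.pi ^ 2 * y ^ 2 := by
    have : (1 / 5 : ℝ) ≤ 2 / Real.pi ^ 2 := by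
      rw [le_div_iff₀ (by positivity)]
      linarith
    nlinarith [sq_nonneg y]
  have h10 : y ^ 2 * (2 / 15) ≤ 2 * Real.exp x * (1 - Real.cos y) := by
    have h11 : y ^ 2 / 5 ≤ 1 - Real.cos y := by linarith
    have h12 : 0 ≤ y ^ 2 / 5 := by positivity
    nlinarith
  have h13 : |y| ^ 2 = y ^ 2 := sq_abs y
  nlinarith [sq_nonneg (|x| / 2 - |y| / 3), abs_nonneg x, abs_nonneg y]

lemma qfA {x y : ℝ} (hx : |x| ≤ 1) (hx0 : x ≠ 0) (hy : |y| ≤ Real.pi) (hy0 : y ≠ 0) :
    qf x y ≤ 2 * gf x * gf y := by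
  unfold qf gf
  have ax : 0 < |x| := abs_pos.2 hx0
  have ay : 0 < |y| := abs_pos.2 hy0
  have h1 := lowA hx hy
  set N := ‖1 - Complex.exp ((x : ℂ) + y * Complex.I)‖ with hN
  have hN0 : 0 ≤ N := norm_nonneg _
  have h2 : √|x| * √|y| / 2 ≤ N := by
    apply le_of_sq_le_sq _ hN0
    rw [div_pow, mul_pow, Real.sq_sqrt ax.le, Real.sq_sqrt ay.le]
    nlinarith [mul_pos ax ay]
  have h3 : 0 < √|x| * √|y| / 2 := by positivity
  rw [Real.rpow_neg ax.le, Real.rpow_neg ay.le, ← Real.sqrt_eq_rpow, ← Real.sqrt_eq_rpow]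
  calc 1 / N ≤ 1 / (√|x| * √|y| / 2) := one_div_le_one_div_of_le h3 h2
    _ = 2 * (√|x|)⁻¹ * (√|y|)⁻¹ := by
        field_simp

lemma qfB {x y : ℝ} (hx : 1 < |x|) : qf x y ≤ 2 := by
  unfold qf
  have h1 : |1 - Real.exp x| ≤ ‖1 - Complex.exp ((x : ℂ) + y * Complex.I)‖ := by
    have h2 := abs_norm_sub_norm_le (1 : ℂ) (Complex.exp ((x : ℂ) + y * Complex.I))
    rw [norm_one, Complex.norm_exp] at h2
    simpa using h2
  have h3 : 1 / 2 ≤ |1 - Real.exp x| := by
    rcases lt_abs.1 hx with h | h
    · have := Real.add_one_le_exp x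
      rw [abs_sub_comm, abs_of_nonneg (by linarith)]
      linarith
    · have h4 : Real.exp x ≤ Real.exp (-1) := Real.exp_le_exp.2 (by linarith)
      have h6 : Real.exp (-1) = (Real.exp 1)⁻¹ := Real.exp_neg 1
      have h7 : 2 ≤ Real.exp 1 := by linarith [Real.exp_one_gt_d9]
      have h8 : (Real.exp 1)⁻¹ ≤ (2 : ℝ)⁻¹ := inv_anti₀ (by norm_num) h7
      rw [abs_of_nonneg (by norm_num at h8; linarith)]
      norm_num at h8
      linarith
  calc 1 / ‖1 - Complex.exp ((x : ℂ) + y * Complex.I)‖ ≤ 1 / (1 / 2) :=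
        one_div_le_one_div_of_le (by norm_num) (h3.trans h1)
    _ = 2 := by norm_num

lemma qf_cont {x : ℝ} (hx : x ≠ 0) : Continuous (qf x) := by
  unfold qf
  refine continuous_const.div (by fun_prop) fun y h => ?_
  have h1 := nsq x y
  rw [h] at h1
  have h2 : (1 - Real.exp x) ^ 2 = 0 := by
    have h3 : 0 ≤ 2 * Real.exp x * (1 - Real.cos y) := by
      have := Real.cos_le_one y
      have := Real.exp_pos x
      apply mul_nonneg (by positivity) (by linarith)
    nlinarith [sq_nonneg (1 - Real.exp x)]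
  have h4 : Real.exp x = 1 := by
    have := pow_eq_zero_iff (two_ne_zero) |>.1 h2
    linarith
  exact hx ((Real.exp_eq_one_iff x).1 h4)

lemma qf_nonneg (x y : ℝ) : 0 ≤ qf x y := by unfold qf; positivity

lemma qf_periodic (x : ℝ) : Function.Periodic (qf x) (2 * Real.pi) := by
  intro y
  unfold qf
  congr 3
  push_cast
  rw [add_mul, ← add_assoc, Complex.exp_add, Complex.exp_two_pi_mul_I, mul_one]

/-- the integral of the inverse square root is finite -/
lemma gf_int (R : ℝ) (hR : 0 ≤ R) : ∫⁻ y in Icc (-R) R, ENNReal.ofReal (gf y) ≠ ⊤ := by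
  have hp : ∫⁻ y in Icc 0 R, ENNReal.ofReal (gf y) ≠ ⊤ := by
    have h1 : IntervalIntegrable (fun x : ℝ => x ^ (-(1 / 2) : ℝ)) volume 0 R :=
      intervalIntegral.intervalIntegrable_rpow' (by norm_num)
    have h2 : IntegrableOn gf (Icc 0 R) := by
      rw [integrableOn_Icc_iff_integrableOn_Ioc]
      rw [intervalIntegrable_iff_integrableOn_Ioc_of_le hR] at h1
      refine h1.congr_fun (fun y hy => ?_) measurableSet_Ioc
      unfold gf
      rw [abs_of_pos hy.1]
    have h3 := h2.2
    refine (lt_of_le_of_lt (lintegral_mono fun y => ?_) h3).ne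
    exact Real.ofReal_le_enorm _
  have hm : ∫⁻ y in Icc (-R) 0, ENNReal.ofReal (gf y) = ∫⁻ y in Icc 0 R, ENNReal.ofReal (gf y) := by
    have hmp : MeasurePreserving (fun y : ℝ => -y) volume volume := Measure.measurePreserving_neg volume
    have hme : MeasurableEmbedding (fun y : ℝ => -y) := (MeasurableEquiv.neg ℝ).measurableEmbedding
    have := hmp.setLIntegral_comp_preimage_emb hme (fun y => ENNReal.ofReal (gf y)) (Icc 0 R)
    rw [← this]
    have e : (fun y : ℝ => -y) ⁻¹' (Icc 0 R) = Icc (-R) 0 := by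
      ext y; simp only [mem_preimage, mem_Icc]; constructor <;> rintro ⟨a, b⟩ <;> constructor <;> linarith
    rw [e]
    refine lintegral_congr fun y => ?_
    unfold gf; rw [abs_neg]
  have hsub : Icc (-R) R ⊆ Icc (-R) 0 ∪ Icc 0 R := by
    intro y hy
    rcases le_total y 0 with h | h
    · exact Or.inl ⟨hy.1, h⟩
    · exact Or.inr ⟨h, hy.2⟩
  refine (lt_of_le_of_lt ((lintegral_mono_set hsub).trans (lintegral_union_le _ _ _)) ?_).ne
  rw [hm]
  exact ENNReal.add_lt_top.2 ⟨hp.lt_top, hp.lt_top⟩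

/-- finite constant -/
def G0 (R : ℝ) : ℝ≥0∞ := ∫⁻ y in Icc (-R) R, ENNReal.ofReal (gf y)

/-- truncated inverse square root -/
def Gk (x : ℝ) : ℝ≥0∞ := (Icc (-1 : ℝ) 1).indicator (fun x => ENNReal.ofReal (gf x)) x

lemma gf_meas : Measurable gf := by
  unfold gf
  exact (continuous_abs.measurable).pow_const _

lemma Gk_meas : Measurable Gk := by
  unfold Gk
  exact (gf_meas.ennreal_ofReal).indicator measurableSet_Icc

lemma inner_qf {x : ℝ} (hx : x ≠ 0) :
    ∫⁻ y in Ioc (-Real.pi) Real.pi, ENNReal.ofReal (qf x y) ≤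
      ENNReal.ofReal (4 * Real.pi) + 2 * G0 Real.pi * Gk x := by
  rcases le_or_gt |x| 1 with h | h
  · have hae : ∀ᵐ y : ℝ ∂(volume.restrict (Ioc (-Real.pi) Real.pi)),
        ENNReal.ofReal (qf x y) ≤ ENNReal.ofReal (2 * gf x) * ENNReal.ofReal (gf y) := by
      have h1 : ∀ᵐ y : ℝ, y ≠ 0 := by
        simp [ae_iff, measure_singleton]
      filter_upwards [ae_restrict_of_ae h1, ae_restrict_mem measurableSet_Ioc] with y hy hy2
      have hgx : 0 ≤ gf x := by unfold gf; positivity
      rw [← ENNReal.ofReal_mul (by positivity)]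
      exact ENNReal.ofReal_le_ofReal (qfA h hx (abs_le.2 ⟨hy2.1.le, hy2.2⟩) hy)
    refine (lintegral_mono_ae hae).trans ?_
    rw [lintegral_const_mul _ gf_meas.ennreal_ofReal]
    refine le_trans ?_ (le_add_left le_rfl)
    have e1 : Gk x = ENNReal.ofReal (gf x) := by
      unfold Gk
      rw [indicator_of_mem]
      exact abs_le.1 h
    rw [e1, ENNReal.ofReal_mul (by norm_num)]
    have e2 : ENNReal.ofReal 2 = 2 := by norm_num
    rw [e2]
    have e3 : ∫⁻ y in Ioc (-Real.pi) Real.pi, ENNReal.ofReal (gf y) ≤ G0 Real.pi :=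
      lintegral_mono_set Ioc_subset_Icc_self
    calc 2 * ENNReal.ofReal (gf x) * ∫⁻ y in Ioc (-Real.pi) Real.pi, ENNReal.ofReal (gf y)
        ≤ 2 * ENNReal.ofReal (gf x) * G0 Real.pi := by gcongr
      _ = 2 * G0 Real.pi * ENNReal.ofReal (gf x) := by ring
  · refine le_trans ?_ (le_add_right le_rfl)
    calc ∫⁻ y in Ioc (-Real.pi) Real.pi, ENNReal.ofReal (qf x y)
        ≤ ∫⁻ _ in Ioc (-Real.pi) Real.pi, ENNReal.ofReal 2 :=
          lintegral_mono fun y => ENNReal.ofReal_le_ofReal (qfB h)
      _ = ENNReal.ofReal (4 * Real.pi) := by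
          rw [setLIntegral_const, Real.volume_Ioc, ← ENNReal.ofReal_mul (by norm_num)]
          congr 1; ring

lemma shift {x : ℝ} (hx : x ≠ 0) (φ A : ℝ) :
    ∫⁻ θ in Ico (A - Real.pi) (A + Real.pi), ENNReal.ofReal (qf x (φ - θ)) =
      ∫⁻ y in Ioc (-Real.pi) Real.pi, ENNReal.ofReal (qf x y) := by
  have hpi := Real.pi_pos
  have hc := qf_cont hx
  have hc2 : Continuous fun θ => qf x (φ - θ) := hc.comp (by fun_prop)
  rw [setLIntegral_congr Ico_ae_eq_Ioc]
  rw [← ofReal_integral_eq_lintegral_ofReal (hc2.integrableOn_Ioc)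
      (Eventually.of_forall fun _ => qf_nonneg _ _),
    ← ofReal_integral_eq_lintegral_ofReal (hc.integrableOn_Ioc)
      (Eventually.of_forall fun _ => qf_nonneg _ _),
    ← intervalIntegral.integral_of_le (by linarith), ← intervalIntegral.integral_of_le (by linarith)]
  congr 1
  have hp : Function.Periodic (fun θ => qf x (φ - θ)) (2 * Real.pi) := by
    intro θ
    show qf x (φ - (θ + 2 * Real.pi)) = qf x (φ - θ)
    have := qf_periodic x (φ - (θ + 2 * Real.pi))
    rw [← this]
    congr 1; ring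
  have h1 := hp.intervalIntegral_add_eq (A - Real.pi) (φ - Real.pi)
  rw [show A - Real.pi + 2 * Real.pi = A + Real.pi by ring,
    show φ - Real.pi + 2 * Real.pi = φ + Real.pi by ring] at h1
  rw [h1, intervalIntegral.integral_comp_sub_left (fun y => qf x y) φ]
  congr 1 <;> ring

lemma integrand {z : ℂ} (hz : z ≠ 0) (t θ : ℝ) :
    1 / ‖1 - z * Complex.exp (-((t : ℂ) + θ * Complex.I))‖ =
      qf (Real.log ‖z‖ - t) (z.arg - θ) := by
  unfold qf
  congr 3
  have h1 : z = Complex.exp (Complex.log z) := (Complex.exp_log hz).symm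
  have h2 : Complex.log z = (Real.log ‖z‖ : ℂ) + z.arg * Complex.I := by
    apply Complex.ext <;> simp [Complex.log_re, Complex.log_im]
  conv_lhs => rw [h1, h2]
  rw [← Complex.exp_add]
  congr 1
  push_cast
  ring

/-- bound of the inner integral -/
lemma inner_bound (z : ℂ) (t A : ℝ) (ht : t ≠ Real.log ‖z‖) :
    ∫⁻ θ in Ico (A - Real.pi) (A + Real.pi),
      ENNReal.ofReal (1 / ‖1 - z * Complex.exp (-((t : ℂ) + θ * Complex.I))‖) ≤
      ENNReal.ofReal (4 * Real.pi) + 2 * G0 Real.pi * Gk (Real.log ‖z‖ - t) := by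
  rcases eq_or_ne z 0 with rfl | hz
  · refine le_trans ?_ (le_add_right le_rfl)
    simp only [zero_mul, sub_zero, norm_one, div_one, ENNReal.ofReal_one]
    rw [setLIntegral_const, Real.volume_Ico, one_mul]
    apply ENNReal.ofReal_le_ofReal
    have := Real.pi_pos
    linarith
  · simp only [integrand hz]
    rw [shift (sub_ne_zero.2 (Ne.symm ht))]
    exact inner_qf (sub_ne_zero.2 (Ne.symm ht))

theorem xib : S_XIB := by
  set B : ℝ≥0∞ := ENNReal.ofReal (4 * Real.pi) + 2 * G0 Real.pi * G0 1 with hB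
  have hBt : B ≠ ⊤ := by
    rw [hB]
    refine ENNReal.add_ne_top.2 ⟨ENNReal.ofReal_ne_top, ENNReal.mul_ne_top (ENNReal.mul_ne_top
      (by norm_num) (gf_int _ Real.pi_pos.le)) (gf_int _ zero_le_one)⟩
  refine ⟨B.toReal + 1, by positivity, fun K m z _ => ?_⟩
  set f : ℂ → ℝ := fun s => 1 / ‖1 - z * Complex.exp (-s)‖ with hf
  have hfm : Measurable f := by
    refine Measurable.div measurable_const ?_
    exact (by fun_prop : Continuous fun s : ℂ => ‖1 - z * Complex.exp (-s)‖).measurable
  have hf0 : ∀ s, 0 ≤ f s := fun s => by positivity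
  have hOm : MeasurableSet (Om K m (m + 1)) := by
    have c1 : Measurable (fun s : ℂ => s.re) := Complex.measurable_re
    have c2 : Measurable (fun s : ℂ => s.im - 8 * s.re ^ (K - 1)) := by
      exact (by fun_prop : Continuous fun s : ℂ => s.im - 8 * s.re ^ (K - 1)).measurable
    exact (measurableSet_le measurable_const c1).inter ((measurableSet_lt c1 measurable_const).inter
      ((measurableSet_le measurable_const c2).inter (measurableSet_lt c2 measurable_const)))
  rw [integral_eq_lintegral_of_nonneg_ae (Eventually.of_forall hf0)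
    hfm.aestronglyMeasurable]
  have key : ∫⁻ s in Om K m (m + 1), ENNReal.ofReal (f s) ≤ B := by
    rw [← lintegral_indicator hOm]
    rw [← (Complex.volume_preserving_equiv_real_prod.symm).lintegral_comp_emb
      Complex.measurableEquivRealProd.symm.measurableEmbedding, Measure.volume_eq_prod,
      lintegral_prod]
    · have hin : ∀ t : ℝ, t ≠ Real.log ‖z‖ → ∫⁻ θ : ℝ, (Om K m (m + 1)).indicator
          (fun s => ENNReal.ofReal (f s)) (Complex.measurableEquivRealProd.symm (t, θ)) ≤
          (Ico (m : ℝ) (m + 1)).indicator (fun t => ENNReal.ofReal (4 * Real.pi) +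
            2 * G0 Real.pi * Gk (Real.log ‖z‖ - t)) t := by
        intro t ht
        have hco : ∀ θ : ℝ, Complex.measurableEquivRealProd.symm (t, θ) = (t : ℂ) + θ * Complex.I := by
          intro θ
          apply Complex.ext <;> simp [Complex.measurableEquivRealProd]
        by_cases h : t ∈ Ico (m : ℝ) (m + 1)
        · rw [indicator_of_mem h]
          refine le_trans (le_of_eq ?_) (inner_bound z t (8 * t ^ (K - 1)) ht)
          rw [← lintegral_indicator measurableSet_Ico]
          refine lintegral_congr fun θ => ?_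
          rw [hco]
          by_cases h2 : θ ∈ Ico (8 * t ^ (K - 1) - Real.pi) (8 * t ^ (K - 1) + Real.pi)
          · rw [indicator_of_mem h2, indicator_of_mem]
            refine ⟨?_, ?_, ?_, ?_⟩
            · simpa using h.1
            · simpa using h.2
            · simp; linarith [h2.1]
            · simp; linarith [h2.2]
          · rw [indicator_of_notMem h2, indicator_of_notMem]
            rintro ⟨-, -, h3, h4⟩
            apply h2
            simp at h3 h4
            exact ⟨by linarith, by linarith⟩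
        · rw [indicator_of_notMem h]
          refine le_of_eq ?_
          rw [lintegral_eq_zero_iff']
          · refine Eventually.of_forall fun θ => ?_
            show (Om K m (m + 1)).indicator _ (Complex.measurableEquivRealProd.symm (t, θ)) = 0
            rw [hco, indicator_of_notMem]
            rintro ⟨h3, h4, -, -⟩
            apply h
            simp at h3 h4
            exact ⟨h3, h4⟩
          · refine Measurable.aemeasurable ?_
            refine Measurable.comp (hfm.ennreal_ofReal.indicator hOm) ?_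
            exact (Complex.measurableEquivRealProd.symm.measurable).comp measurable_prodMk_left
      have hae : ∀ᵐ t : ℝ, t ≠ Real.log ‖z‖ := by simp [ae_iff, measure_singleton]
      refine (lintegral_mono_ae (hae.mono hin)).trans ?_
      rw [lintegral_indicator measurableSet_Ico]
      have hGm : Measurable fun t : ℝ => Gk (Real.log ‖z‖ - t) :=
        Gk_meas.comp (measurable_const.sub measurable_id)
      rw [lintegral_add_left measurable_const, lintegral_const_mul _ hGm, setLIntegral_const,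
        Real.volume_Ico]
      have e1 : ENNReal.ofReal ((m : ℝ) + 1 - m) = 1 := by
        rw [add_sub_cancel_left]; simp
      rw [e1, mul_one, hB]
      have e2 : ∫⁻ t in Ico (m : ℝ) (m + 1), Gk (Real.log ‖z‖ - t) ≤ G0 1 := by
        refine (setLIntegral_le_lintegral _ _).trans ?_
        rw [lintegral_sub_left_eq_self (fun t => Gk t) (Real.log ‖z‖)]
        unfold Gk G0
        rw [lintegral_indicator measurableSet_Icc]
      gcongr
    · refine Measurable.aemeasurable ?_
      exact (hfm.ennreal_ofReal.indicator hOm).comp Complex.measurableEquivRealProd.symm.measurable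
  have := ENNReal.toReal_mono hBt key
  linarith

end

end Pool.Agent.W371.CI
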